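import Pool.Agent.Helper18.FM.GoalsC
import Pool.Agent.Helper10.HB.SNK

/-! # FM: the numerical dimension (`S_FNK`) -/

open Complex Metric Set Filter Topology MeasureTheory
open scoped ContDiff ComplexConjugate ComplexOrder Manifold Matrix MatrixOrder

namespace Pool.Agent.Helper83.FM.FNK

open Pool.Agent.Helper95.Lin Pool.Agent.Helper16.Abund Pool.Agent.Helper92.Orb
  Pool.Agent.Helper10.SP Pool.Agent.Helper95.RK Pool.Agent.Helper57.HS
  Pool.Agent.Helper15.HS Pool.Agent.Helper15.GS Pool.Agent.Helper57.RBC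
  Pool.Agent.Helper82.HB
open Pool.Agent.Helper56.GS.GB5 (testF_mul det_cont)
open Pool.Agent.Helper10.RBC (det_real itg_int itg_one exp_cmp rnk_pt)
open Pool.Agent.Helper10.HB (snk_psd snk_one FP_cont F_contm mulR_smooth ctR_smooth)
open Pool.Agent.Helper18.FM (FDat LimV SF S_FND S_FAV S_FBET S_FNK)

universe u

theorem tr_nn {m : ℕ} {A B : Matrix (Fin m) (Fin m) ℂ} (hA : A.PosSemidef)
    (hB : B.PosSemidef) : 0 ≤ (Matrix.trace (A * B)).re := by
  obtain ⟨S, hS⟩ : ∃ S : Matrix (Fin m) (Fin m) ℂ, A = Sᴴ * S := by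
    exact CStarAlgebra.nonneg_iff_eq_star_mul_self.mp hA.nonneg
  have h0 : Matrix.trace (A * B) = Matrix.trace (S * B * Sᴴ) := by
    rw [hS, Matrix.mul_assoc, Matrix.trace_mul_comm Sᴴ, Matrix.mul_assoc]
  have h1 : (S * B * Sᴴ).PosSemidef := hB.mul_mul_conjTranspose_same S
  rw [h0]
  exact (Complex.le_def.1 h1.trace_nonneg).1

/-- FNK -/
theorem t (hWIRT : S_WIRT) (hCMPG : S_CMPG.{u}) (hRHOI : S_RHOI.{u}) (hSRLV : S_SRLV.{u})
    (hFND : S_FND.{u}) (hFAV : S_FAV.{u}) (hFBET : S_FBET.{u}) (hSDL : S_SDL)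
    (hRDL : Pool.Agent.Helper10.RBC.S_RDL)
    (hTRC : Pool.Agent.Helper95.HS.S_TRC) (hNULL0 : Pool.Agent.Helper95.HS.S_NULL0.{u}) :
    S_FNK.{u} := by
  intro n m hn T G _ R H σ h χ cc ψ hD κ hκ k p hp hV r X P s N φ H' ε Q hL
  have hT : IsOpen T := hD.ket.et.isOpen
  have hεlim := hL.lim
  have hNlim := hL.limN
  have hPar := hL.par.par
  have hs0 : 0 ≤ s := by
    obtain ⟨hvol, -⟩ := hNULL0 T R H hD.ket κ hκ
    have hne : T.Nonempty := by
      by_contra h0
      rw [Set.not_nonempty_iff_eq_empty] at h0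
      rw [h0] at hvol
      simp [Pool.Agent.Helper95.HS.vol] at hvol
    obtain ⟨x, hx⟩ := hne
    have h1 := hL.pos x hx
    have h2 := (hD.sf.posDef x hx).inv.posSemidef
    have h3 := tr_nn h1 h2
    have hu : IsUnit (h x).det := (hD.sf.posDef x hx).det_pos.ne'.isUnit
    rw [Matrix.mul_assoc, Matrix.mul_nonsing_inv _ hu, Matrix.mul_one, hL.tr x hx,
      Complex.ofReal_re] at h3
    exact h3
  obtain ⟨-, -, hbet⟩ := hFBET T R hD.ket.et σ h P r hD.sf hPar
  -- the metric `rho H + LM ψ + g`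
  obtain ⟨hr1, hr2, hr3, hr4, hr5⟩ := hRHOI T R H hD.ket.et ⟨hD.ket.posDef, hD.ket.smooth, hD.ket.inv⟩
  have hσs : ∀ i a, ContDiffOn ℝ ∞ (fun x => σ x i a) T := (Pool.Agent.Helper10.HB.cdbR_holo hWIRT hT hD.sf.holo).1
  have hPs : ∀ i a, ContDiffOn ℝ ∞ (fun x => P x i a) T := (Pool.Agent.Helper10.HB.cdbR_holo hWIRT hT hPar.holo).1
  have hgs : ∀ i j, ContDiffOn ℝ ∞ (fun x => gS σ h x i j) T :=
    mulR_smooth (fun x => σ x * h x) (fun x => (σ x)ᴴ) (mulR_smooth σ h hσs hD.sf.smooth)
      (ctR_smooth σ hσs)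
  have hfs : ∀ i a, ContDiffOn ℝ ∞ (fun x => (σ x * P x) i a) T := mulR_smooth σ P hσs hPs
  have hβs : ∀ i j, ContDiffOn ℝ ∞ (fun x => gS (fun y => σ y * P y) h x i j) T :=
    mulR_smooth (fun x => (σ x * P x) * h x) (fun x => (σ x * P x)ᴴ)
      (mulR_smooth (fun x => σ x * P x) h hfs hD.sf.smooth) (ctR_smooth (fun x => σ x * P x) hfs)
  obtain ⟨hψ1, hψ2⟩ := hr4 ψ hD.psi
  have hher : HerT T R (fun x => rho H x + LM ψ x + gS σ h x) := by
    refine ⟨hD.pos, fun i j => ?_, ?_⟩
    · exact ((hr1.smooth i j).add (hψ1.smooth i j)).add (hgs i j)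
    · exact Pool.Agent.Helper97.HS.invH_ad (Pool.Agent.Helper97.HS.invH_ad hr2 hψ2) hD.sf.inv
  obtain ⟨c₀, C, -, hC0, hC⟩ := hCMPG T R H _ hD.ket hher
  set c : ℝ := C⁻¹ with hc
  have hc0 : 0 < c := inv_pos.2 hC0
  have hcH : ∀ x ∈ T, (rho H x + LM ψ x + (gS (fun y => σ y * P y) h x +
      gS (fun y => σ y * (1 - P y)) h x) - (c : ℂ) • H x).PosSemidef := by
    intro x hx
    have h1 := (hC x hx).2
    have h2 : (((c : ℝ) : ℂ) • ((C : ℂ) • (rho H x + LM ψ x + gS σ h x) - H x)).PosSemidef :=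
      h1.smul (by exact_mod_cast hc0.le)
    have h3 : ((c : ℝ) : ℂ) • ((C : ℂ) • (rho H x + LM ψ x + gS σ h x) - H x) =
        rho H x + LM ψ x + gS σ h x - (c : ℂ) • H x := by
      rw [smul_sub, smul_smul]
      have h4 : (c : ℂ) * (C : ℂ) = 1 := by
        rw [hc]
        push_cast
        exact inv_mul_cancel₀ (by exact_mod_cast hC0.ne')
      rw [h4, one_smul]
    rw [h3, (hbet x hx).1] at h2
    exact h2
  refine exp_cmp k r (s / c) (div_nonneg hs0 hc0.le) fun t' ht' => ?_
  set t : ℝ := t' / c with htd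
  have ht : 0 < t := div_pos ht' hc0
  have htc : t * c = t' := div_mul_cancel₀ _ hc0.ne'
  -- the function `F`
  set F : Cn n → Matrix (Fin m) (Fin m) ℂ → ℝ := fun x Y =>
    (1 + (t : ℂ) • (P x * Y * P x)).det.re with hF
  have hFc : ContinuousOn (fun q : Cn n × Matrix (Fin m) (Fin m) ℂ => F q.1 q.2) (T ×ˢ univ) :=
    FP_cont (fun a b => (hPs a b).continuousOn) t
  have hpt : ∀ x ∈ T, 0 ≤ F x (X x) ∧ F x (X x) ≤ (1 + t * s) ^ r := by
    intro x hx
    have h1 : P x * X x * P x = X x := by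
      rw [(hL.XP x hx).2, (hL.XP x hx).1]
    simp only [hF]
    rw [h1]
    exact rnk_pt hRDL r (h x) (P x) (X x) (hD.sf.posDef x hx) (hPar.proj x hx)
      (hPar.tr x hx) (hL.XP x hx).2 (hL.pos x hx) s hs0
      (by rw [hL.tr x hx, Complex.ofReal_re]) t ht.le
  set b₀ : ℝ := (1 + t * s) ^ r with hb₀
  have hb₀0 : 0 ≤ b₀ := by positivity
  have ha : ∀ j, 0 < 1 + ε j * N j := fun j => by
    have h1 := (hL.fam j).nn
    have h2 := (hL.eps j).le
    positivity
  set sj : ℕ → ℝ := fun j => ε j / (1 + ε j * N j) with hsj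
  have hsj0 : ∀ j, 0 < sj j := fun j => div_pos (hL.eps j) (ha j)
  have hslim : Tendsto sj atTop (𝓝 0) := by
    have h1 : Tendsto (fun j => 1 + ε j * N j) atTop (𝓝 (1 + cc)) := hNlim.const_add 1
    have h2 := hεlim.div h1 (by have := hD.c0; positivity)
    rw [zero_div] at h2
    exact h2
  have hη : ∀ d : ℝ, 0 < d → ∀ η : ℝ, 0 < η → (1 + t') ^ k ≤ (1 + t * d) ^ n * (b₀ + η) := by
    intro d hd η hη
    have hav := hFAV T R H σ h χ cc ψ hD κ hκ r X P s N φ H' ε Q hL F hFc 0 b₀ hpt η hη
    have hnd := hFND hn T R H σ h χ cc ψ hD κ hκ r X P s N φ H' ε Q hL d hd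
    have hev : ∀ᶠ j in atTop, (1 + t') ^ k * p.eval (sj j * (1 + t')) ≤
        p.eval (sj j) * ((1 + t * ε j + t * d) ^ n * (b₀ + η)) := by
      filter_upwards [hav, hnd] with j hj hjd
      have hQk : KEt T R (Q j) := (hL.tke j).ket
      have hεj := hL.eps j
      obtain ⟨hvol, -⟩ := hNULL0 T R (Q j) hQk κ hκ
      obtain ⟨hsr, hlv⟩ := hSRLV T R H hD.ket κ hκ (ε j) (N j) (φ j) (H' j) (Q j) hεj
        (hL.fam j) (hL.tke j)
      obtain ⟨hw, hrw⟩ := hr5 (Q j) ⟨hQk.posDef, hQk.smooth, hQk.inv⟩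
      set b : ℝ := 1 + t * ε j + t * d with hbd
      have hb1 : 1 ≤ b := by
        have h1 := mul_pos ht hεj
        have h2 := mul_pos ht hd
        linarith
      -- the potential
      set w : Cn n → ℝ := fun y => (-(t * ε j)) * (ld (Q j) y - ld H y) + (t * ε j) * ψ y with hwd
      have hwI : InvF T R w := by
        refine ⟨(contDiffOn_const.mul hw.1).add (contDiffOn_const.mul hD.psi.1), ?_⟩
        intro γ x y hxy
        have a1 := hw.2 γ x y hxy
        have a2 := hD.psi.2 γ x y hxy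
        simp only [hwd]
        simp only at a1
        rw [a1, a2]
      have hβC : CHF (fun x => ((t * ε j : ℝ) : ℂ) • gS (fun y => σ y * P y) h x) T :=
        Pool.Agent.Helper97.HS.chf_sm hT hPar.chf _
      have hβI : InvH R (fun x => ((t * ε j : ℝ) : ℂ) • gS (fun y => σ y * P y) h x) :=
        Pool.Agent.Helper97.HS.invH_sm hPar.inv _
      have hsr2 := (hsr b _ w hβC hβI hwI).2
      -- the comparison of the determinants
      have hcmp : ∫ x in T, κ x * (Q j x + ((t * c * ε j : ℝ) : ℂ) • H x).det.re ≤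
          ∫ x in T, κ x * ((b : ℂ) • Q j x +
            ((t * ε j : ℝ) : ℂ) • gS (fun y => σ y * P y) h x + LM w x).det.re := by
        have i1 : IntegrableOn (fun x => κ x * (Q j x + ((t * c * ε j : ℝ) : ℂ) • H x).det.re)
            T := by
          refine (testF_mul hT hκ.test (det_cont fun a c => ?_)).integrableOn
          exact (hQk.smooth a c).add (contDiffOn_const.mul (hD.ket.smooth a c))
        have i2 : IntegrableOn (fun x => κ x * ((b : ℂ) • Q j x +
            ((t * ε j : ℝ) : ℂ) • gS (fun y => σ y * P y) h x + LM w x).det.re) T := by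
          refine (testF_mul hT hκ.test (det_cont fun a c => ?_)).integrableOn
          exact ((contDiffOn_const.mul (hQk.smooth a c)).add (contDiffOn_const.mul
            (hβs a c))).add ((hr4 w hwI).1.smooth a c)
        refine setIntegral_mono_on i1 i2 hT.measurableSet fun x hx => ?_
        refine mul_le_mul_of_nonneg_left ?_ (hκ.nonneg x)
        have hQx := hQk.posDef x hx
        have hH'x : (H' j x).PosSemidef := ((hL.fam j).ket.posDef x hx).posSemidef
        have hQe : Q j x = rho H x + LM (fun y => ld (Q j) y - ld H y) x + (ε j : ℂ) • H' j x := by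
          have h1 := (hL.tke j).eq x hx
          rw [hrw x hx] at h1
          rw [h1]
          abel
        have hdQ : ((d : ℂ) • Q j x - (ε j : ℂ) • gS (fun y => σ y * (1 - P y)) h x).PosSemidef := by
          have hg' : (gS (fun y => σ y * (1 - P y)) h x).PosSemidef := (hbet x hx).2.2.1
          have hg'' : ((ε j : ℂ) • gS (fun y => σ y * (1 - P y)) h x).PosSemidef :=
            hg'.smul (by exact_mod_cast hεj.le)
          refine Pool.Agent.Helper88.GS.le_tr_smul hg'' hQx ?_
          rw [Matrix.smul_mul, Matrix.trace_smul, smul_eq_mul, Complex.re_ofReal_mul]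
          exact hjd x hx
        have hLMw : LM w x = ((-(t * ε j) : ℝ) : ℂ) • LM (fun y => ld (Q j) y - ld H y) x +
            ((t * ε j : ℝ) : ℂ) • LM ψ x :=
          Pool.Agent.Helper94.HS.LM_lin hWIRT hT hw.1 hD.psi.1 _ _ hx
        have hpsd := snk_psd (Q j x) (H x) (H' j x) (rho H x)
          (LM (fun y => ld (Q j) y - ld H y) x) (LM ψ x) (gS (fun y => σ y * P y) h x)
          (gS (fun y => σ y * (1 - P y)) h x) t c (ε j) d ht hεj hQe hH'x (hcH x hx) hdQ
        have hX : (Q j x + ((t * c * ε j : ℝ) : ℂ) • H x).PosDef := by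
          refine hQx.add_posSemidef ((hD.ket.posDef x hx).posSemidef.smul ?_)
          exact_mod_cast (mul_pos (mul_pos ht hc0) hεj).le
        refine (hTRC _ ((b : ℂ) • Q j x +
            ((t * ε j : ℝ) : ℂ) • gS (fun y => σ y * P y) h x + LM w x) hX).2.2.2.1 ?_
        rw [hLMw]
        exact hpsd
      -- the integral of the determinant
      have hXe : ∀ x ∈ T, (ε j : ℂ) • (h x * (σ x * P x)ᴴ * (Q j x)⁻¹ * (σ x * P x)) =
          P x * XS (ε j) σ h (Q j) x * P x := fun x hx => ((hbet x hx).2.2.2.2.2 (ε j) (Q j)).1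
      have hXc : ContinuousOn (fun x => (1 + (t : ℂ) • (P x * XS (ε j) σ h (Q j) x * P x)).det.re)
          T := by
        have hKs : ∀ a b, ContinuousOn (fun x => (Q j x)⁻¹ a b) T := by
          intro a b
          have h1 : ContinuousOn (Q j) T := by
            refine continuousOn_pi.2 fun a => continuousOn_pi.2 fun c => ?_
            exact (hQk.smooth a c).continuousOn
          have h2 : ContinuousOn (fun x => (Q j x).adjugate a b) T := by
            have h3 : Continuous fun M : Matrix (Fin n) (Fin n) ℂ => M.adjugate a b :=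
              (Continuous.matrix_adjugate continuous_id).matrix_elem a b
            exact h3.comp_continuousOn h1
          have h4 : ContinuousOn (fun x => (Q j x).det) T :=
            (Continuous.matrix_det continuous_id).comp_continuousOn h1
          have h5 : ContinuousOn (fun x => ((Q j x).det)⁻¹ * (Q j x).adjugate a b) T :=
            (h4.inv₀ fun x hx => (hQk.posDef x hx).det_pos.ne').mul h2
          refine h5.congr fun x _ => ?_
          rw [Matrix.inv_def, Matrix.smul_apply, Ring.inverse_eq_inv', smul_eq_mul]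
        have hσc : ∀ a b, ContinuousOn (fun x => σ x a b) T := fun a b => (hσs a b).continuousOn
        have hhc : ∀ a b, ContinuousOn (fun x => h x a b) T := fun a b =>
          (hD.sf.smooth a b).continuousOn
        have hXS : ∀ a b, ContinuousOn (fun x => XS (ε j) σ h (Q j) x a b) T := by
          intro a b
          simp only [XS, Matrix.smul_apply, Matrix.mul_apply, Matrix.conjTranspose_apply,
            smul_eq_mul]
          refine continuousOn_const.mul (continuousOn_finsetSum _ fun i _ => ?_)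
          refine ContinuousOn.mul (continuousOn_finsetSum _ fun l _ => ?_) (hσc i b)
          refine ContinuousOn.mul (continuousOn_finsetSum _ fun q _ => ?_) (hKs l i)
          exact (hhc a q).mul (Complex.continuous_conj.comp_continuousOn (hσc l q))
        exact F_contm
          (F := fun x Y => (1 + (t : ℂ) • (P x * Y * P x)).det.re) hFc hXS
      have hav2 : avE T κ (Q j) (fun x =>
          (1 + (t : ℂ) • (P x * XS (ε j) σ h (Q j) x * P x)).det.re) ≤ b₀ + η := hj.2
      have hone := snk_one hTRC hSDL hT hκ hQk (f := fun y => σ y * P y) (h := h) (P := P)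
        (X := fun x => P x * XS (ε j) σ h (Q j) x * P x) r hβs hD.sf.posDef hPar.proj
        hPar.herm hPar.tr
        (fun x hx => by rw [Matrix.mul_assoc, hPar.proj x hx]) t (ε j) b (b₀ + η) ht hεj hb1
        hXe hvol hXc hav2
      have h2 := (hcmp.trans (le_of_eq hsr2)).trans hone
      -- volumes
      have e4 : Pool.Agent.Helper95.HS.vol T κ (Q j) =
          (1 + ε j * N j) ^ n * (sj j ^ k * p.eval (sj j)) := by
        have h3 := hlv 0
        simp only [Complex.ofReal_zero, zero_smul, add_zero] at h3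
        rw [Pool.Agent.Helper95.HS.vol, h3, hV]
      have e5 : ∫ x in T, κ x * (Q j x + ((t * c * ε j : ℝ) : ℂ) • H x).det.re =
          (1 + ε j * N j) ^ n * ((sj j * (1 + t')) ^ k * p.eval (sj j * (1 + t'))) := by
        have h3 := hlv (t * c * ε j)
        have h4 : (ε j + t * c * ε j) / (1 + ε j * N j) = sj j * (1 + t') := by
          simp only [hsj]
          rw [htc]
          ring
        rw [h3, h4, hV]
      rw [e4, e5] at h2
      have hq : 0 < (1 + ε j * N j) ^ n * sj j ^ k := by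
        have := ha j
        have := hsj0 j
        positivity
      have h6 : ((1 + ε j * N j) ^ n * sj j ^ k) * ((1 + t') ^ k * p.eval (sj j * (1 + t'))) ≤
          ((1 + ε j * N j) ^ n * sj j ^ k) * (p.eval (sj j) * (b ^ n * (b₀ + η))) := by
        calc ((1 + ε j * N j) ^ n * sj j ^ k) * ((1 + t') ^ k * p.eval (sj j * (1 + t')))
            = (1 + ε j * N j) ^ n * ((sj j * (1 + t')) ^ k * p.eval (sj j * (1 + t'))) := by
              rw [mul_pow]; ring
          _ ≤ b ^ n * ((b₀ + η) * ((1 + ε j * N j) ^ n * (sj j ^ k * p.eval (sj j)))) := h2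
          _ = _ := by ring
      exact le_of_mul_le_mul_left h6 hq
    have hl1 : Tendsto (fun j => (1 + t') ^ k * p.eval (sj j * (1 + t'))) atTop
        (𝓝 ((1 + t') ^ k * p.eval 0)) := by
      have h1 : Tendsto (fun j => sj j * (1 + t')) atTop (𝓝 (0 * (1 + t'))) :=
        hslim.mul_const _
      rw [zero_mul] at h1
      exact ((p.continuous.tendsto 0).comp h1).const_mul _
    have hl2 : Tendsto (fun j => p.eval (sj j) * ((1 + t * ε j + t * d) ^ n * (b₀ + η))) atTop
        (𝓝 (p.eval 0 * ((1 + t * 0 + t * d) ^ n * (b₀ + η)))) := by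
      refine ((p.continuous.tendsto 0).comp hslim).mul ?_
      refine Tendsto.mul_const _ (Tendsto.pow ?_ n)
      exact ((hεlim.const_mul t).const_add 1).add_const _
    have h7 := le_of_tendsto_of_tendsto hl1 hl2 hev
    rw [mul_zero, add_zero] at h7
    have h8 : p.eval 0 * (1 + t') ^ k ≤ p.eval 0 * ((1 + t * d) ^ n * (b₀ + η)) := by linarith
    exact le_of_mul_le_mul_left h8 hp
  -- the limit `d, η → 0`
  have h9 : (1 + t') ^ k ≤ b₀ := by
    have hlim : Tendsto (fun d : ℝ => (1 + t * d) ^ n * (b₀ + d)) (𝓝[>] 0)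
        (𝓝 ((1 + t * 0) ^ n * (b₀ + 0))) := by
      refine Tendsto.mono_left ?_ nhdsWithin_le_nhds
      have hcont : Continuous fun d : ℝ => (1 + t * d) ^ n * (b₀ + d) := by fun_prop
      exact hcont.tendsto 0
    rw [mul_zero, add_zero, one_pow, one_mul, add_zero] at hlim
    refine ge_of_tendsto hlim ?_
    filter_upwards [self_mem_nhdsWithin] with d hd
    exact hη d hd d hd
  rw [hb₀] at h9
  calc (1 + t') ^ k ≤ (1 + t * s) ^ r := h9
    _ = (1 + t' * (s / c)) ^ r := by rw [htd]; ring

end Pool.Agent.Helper83.FM.FNK
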